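import Pool.Agent.Lib_helper68.MC.Defs

set_option autoImplicit false

/-! Project MC (MP_b08f5f_an), block DS: the uniform disc of radius `√2`. -/

namespace Pool.Agent.Lib_helper68.MC

open MeasureTheory Filter Topology Set
open scoped ComplexConjugate ENNReal NNReal

noncomputable section

/-- the disc of radius `√2` -/
def DS_A : Set ℂ := Metric.ball (0 : ℂ) (Real.sqrt 2)

/-- the uniform density -/
def DS_rho : ℂ → ℝ := DS_A.indicator fun _ => (2 * Real.pi)⁻¹

theorem DS_sqrt : 0 < Real.sqrt 2 := Real.sqrt_pos.2 (by norm_num)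

theorem DS_measA : MeasurableSet DS_A := Metric.isOpen_ball.measurableSet

theorem DS_volA : volume DS_A = ENNReal.ofReal (2 * Real.pi) := by
  rw [DS_A, Complex.volume_ball, ← ENNReal.ofReal_pow DS_sqrt.le, Real.sq_sqrt (by norm_num),
    ENNReal.ofReal_mul (by norm_num)]
  congr 1
  exact (ENNReal.ofReal_coe_nnreal (p := NNReal.pi)).symm

theorem DS_mem (x : ℂ) : x ∈ DS_A ↔ ‖x‖ < Real.sqrt 2 := by
  simp [DS_A]

theorem DS_norm (x : ℂ) (r θ : ℝ) :
    ‖x - (r : ℂ) * (Real.cos θ + Real.sin θ * Complex.I)‖ = ‖circleMap 0 r θ - x‖ := by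
  rw [norm_sub_rev, circleMap, zero_add, Complex.exp_mul_I, Complex.ofReal_cos,
    Complex.ofReal_sin]

/-- the angular integral -/
theorem DS_circle (x : ℂ) {r : ℝ} (hr : 0 < r) :
    ∫ θ in Ioo (-Real.pi) Real.pi,
        Real.log ‖x - (r : ℂ) * (Real.cos θ + Real.sin θ * Complex.I)‖ =
      2 * Real.pi * Real.log (max ‖x‖ r) := by
  have hav := circleAverage_log_norm_sub_const_eq_log_radius_add_posLog (a := x) (c := 0)
    (R := r) hr.ne'
  rw [Real.circleAverage_def] at hav
  have e1 := DS_norm x r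
  have hper : Function.Periodic (fun θ : ℝ => Real.log ‖circleMap 0 r θ - x‖) (2 * Real.pi) := by
    intro θ
    simp only [periodic_circleMap 0 r θ]
  have h2 : ∫ θ in Ioo (-Real.pi) Real.pi,
      Real.log ‖x - (r : ℂ) * (Real.cos θ + Real.sin θ * Complex.I)‖ =
      ∫ θ in (0 : ℝ)..2 * Real.pi, Real.log ‖circleMap 0 r θ - x‖ := by
    have hp := hper.intervalIntegral_add_eq (-Real.pi) 0
    rw [zero_add] at hp
    rw [← hp, intervalIntegral.integral_of_le (by linarith [Real.pi_pos]),
      ← integral_Ioc_eq_integral_Ioo]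
    have : -Real.pi + 2 * Real.pi = Real.pi := by ring
    rw [this]
    refine setIntegral_congr_fun measurableSet_Ioc fun θ _ => ?_
    simp only [e1]
  rw [h2]
  have h3 : ∫ θ in (0 : ℝ)..2 * Real.pi, Real.log ‖circleMap 0 r θ - x‖ =
      2 * Real.pi * (Real.log r + Real.posLog (r⁻¹ * ‖(0 : ℂ) - x‖)) := by
    rw [← hav, smul_eq_mul]
    field_simp
  rw [h3, zero_sub, norm_neg, Real.posLog_eq_log_max_one (by positivity),
    ← Real.log_mul hr.ne' (by positivity)]
  congr 2
  rw [mul_max_of_nonneg _ _ hr.le, mul_one, max_comm, ← mul_assoc, mul_inv_cancel₀ hr.ne', one_mul]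

/-- the angular function is integrable -/
theorem DS_circle_int (x : ℂ) (r : ℝ) :
    IntegrableOn (fun θ : ℝ =>
      Real.log ‖x - (r : ℂ) * (Real.cos θ + Real.sin θ * Complex.I)‖)
      (Ioo (-Real.pi) Real.pi) := by
  have hm : CircleIntegrable (fun z => Real.log ‖z - x‖) 0 r :=
    MeromorphicOn.circleIntegrable_log_norm (f := fun z : ℂ => z - x) (fun _ _ => by fun_prop)
  have hper : Function.Periodic (fun θ : ℝ => Real.log ‖circleMap 0 r θ - x‖) (2 * Real.pi) := by
    intro θ
    simp only [periodic_circleMap 0 r θ]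
  have h1 : IntervalIntegrable (fun θ : ℝ => Real.log ‖circleMap 0 r θ - x‖) volume 0
      (0 + 2 * Real.pi) := by
    rw [zero_add]
    exact hm
  have h2 := hper.intervalIntegrable (by positivity) h1 (-Real.pi) Real.pi
  rw [intervalIntegrable_iff_integrableOn_Ioo_of_le (by linarith [Real.pi_pos])] at h2
  refine h2.congr_fun (fun θ _ => ?_) measurableSet_Ioo
  simp only [DS_norm]

/-- the radial integral -/
theorem DS_radial {a : ℝ} (ha0 : 0 ≤ a) (ha : a < Real.sqrt 2) :
    IntegrableOn (fun r : ℝ => r * Real.log (max a r)) (Ioo 0 (Real.sqrt 2)) ∧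
    ∫ r in Ioo 0 (Real.sqrt 2), r * Real.log (max a r) =
      (1 / 2) * Real.log 2 - 1 / 2 + a ^ 2 / 4 := by
  have hs := DS_sqrt
  have hs2 : Real.sqrt 2 ^ 2 = 2 := Real.sq_sqrt (by norm_num)
  have hls : Real.log (Real.sqrt 2) = (1 / 2) * Real.log 2 := by
    rw [Real.log_sqrt (by norm_num)]
    ring
  have c1 : Continuous fun r : ℝ => r * Real.log r := Real.continuous_mul_log
  have i1 : IntervalIntegrable (fun r : ℝ => r * Real.log (max a r)) volume 0 a := by
    have : IntervalIntegrable (fun r : ℝ => r * Real.log a) volume 0 a :=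
      (by fun_prop : Continuous fun r : ℝ => r * Real.log a).intervalIntegrable _ _
    refine this.congr fun r hr => ?_
    rw [uIoc_of_le ha0] at hr
    simp only [max_eq_left hr.2]
  have i2 : IntervalIntegrable (fun r : ℝ => r * Real.log (max a r)) volume a (Real.sqrt 2) := by
    refine (c1.intervalIntegrable _ _).congr fun r hr => ?_
    rw [uIoc_of_le ha.le] at hr
    simp only [max_eq_right hr.1.le]
  have v1 : ∫ r in (0 : ℝ)..a, r * Real.log (max a r) = a ^ 2 / 2 * Real.log a := by
    have : ∫ r in (0 : ℝ)..a, r * Real.log (max a r) = ∫ r in (0 : ℝ)..a, r * Real.log a := by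
      refine intervalIntegral.integral_congr fun r hr => ?_
      rw [uIcc_of_le ha0] at hr
      simp only [max_eq_left hr.2]
    rw [this, intervalIntegral.integral_mul_const, integral_id]
    ring
  have v2 : ∫ r in a..(Real.sqrt 2), r * Real.log (max a r) =
      (1 / 2) * Real.log 2 - 1 / 2 - (a ^ 2 / 2 * Real.log a - a ^ 2 / 4) := by
    have e : ∫ r in a..(Real.sqrt 2), r * Real.log (max a r) =
        ∫ r in a..(Real.sqrt 2), r * Real.log r := by
      refine intervalIntegral.integral_congr fun r hr => ?_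
      rw [uIcc_of_le ha.le] at hr
      simp only [max_eq_right hr.1]
    rw [e, intervalIntegral.integral_eq_sub_of_hasDerivAt_of_le
      (f := fun r => r / 2 * (r * Real.log r) - r ^ 2 / 4) ha.le]
    · have hq : Real.sqrt 2 * Real.sqrt 2 = 2 := Real.mul_self_sqrt (by norm_num)
      have : Real.sqrt 2 / 2 * (Real.sqrt 2 * Real.log (Real.sqrt 2)) =
          Real.log (Real.sqrt 2) := by
        calc _ = (Real.sqrt 2 * Real.sqrt 2) / 2 * Real.log (Real.sqrt 2) := by ring
          _ = _ := by rw [hq]; ring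
      change Real.sqrt 2 / 2 * (Real.sqrt 2 * Real.log (Real.sqrt 2)) - Real.sqrt 2 ^ 2 / 4 -
        (a / 2 * (a * Real.log a) - a ^ 2 / 4) = _
      rw [this, hls, hs2]
      ring
    · exact Continuous.continuousOn (by fun_prop)
    · intro r hr
      have hr0 : 0 < r := lt_of_le_of_lt ha0 hr.1
      have hd := (Real.hasDerivAt_log hr0.ne')
      have h1 : HasDerivAt (fun r : ℝ => r * Real.log r) (1 * Real.log r + r * r⁻¹) r :=
        (hasDerivAt_id r).mul hd
      have h2 : HasDerivAt (fun r : ℝ => r / 2) (1 / 2) r := (hasDerivAt_id r).div_const 2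
      have h3 : HasDerivAt (fun r : ℝ => r ^ 2 / 4) (2 * r / 4) r := by
        have := (hasDerivAt_pow 2 r).div_const 4
        simpa using this
      have h4 := (h2.mul h1).sub h3
      refine h4.congr_deriv ?_
      field_simp
      ring
    · exact c1.intervalIntegrable _ _
  have i := i1.trans i2
  refine ⟨?_, ?_⟩
  · rw [intervalIntegrable_iff_integrableOn_Ioo_of_le hs.le] at i
    exact i
  · rw [← integral_Ioc_eq_integral_Ioo, ← intervalIntegral.integral_of_le hs.le,
      ← intervalIntegral.integral_add_adjacent_intervals i1 i2, v1, v2]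
    ring

/-- the upper bound of the kernel on the disc -/
def DS_L : ℝ := Real.log (2 * Real.sqrt 2)

theorem DS_L_eq : DS_L = 3 / 2 * Real.log 2 := by
  rw [DS_L, Real.log_mul (by norm_num) DS_sqrt.ne', Real.log_sqrt (by norm_num)]
  ring

theorem DS_L_le {x y : ℂ} (hx : ‖x‖ ≤ Real.sqrt 2) (hy : ‖y‖ ≤ Real.sqrt 2) :
    0 ≤ DS_L - Real.log ‖x - y‖ := by
  have hL : 0 ≤ DS_L := by
    rw [DS_L_eq]
    have := Real.log_nonneg (by norm_num : (1 : ℝ) ≤ 2)
    linarith
  rcases (norm_nonneg (x - y)).eq_or_lt with h | h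
  · rw [← h, Real.log_zero]
    linarith
  · have h1 : ‖x - y‖ ≤ 2 * Real.sqrt 2 := by
      have := norm_sub_le x y
      linarith
    have := Real.log_le_log h h1
    unfold DS_L
    linarith

/-- the potential -/
def DS_P (x : ℂ) : ℝ := 2 * Real.pi * (DS_L - ((1 / 2) * Real.log 2 - 1 / 2 + ‖x‖ ^ 2 / 4))

theorem DS_meas_K : Measurable fun p : ℂ × ℂ => DS_L - Real.log ‖p.1 - p.2‖ :=
  measurable_const.sub (Real.measurable_log.comp (measurable_fst.sub measurable_snd).norm)

theorem DS_pot {x : ℂ} (hx : x ∈ DS_A) :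
    ∫⁻ y in DS_A, ENNReal.ofReal (DS_L - Real.log ‖x - y‖) = ENNReal.ofReal (DS_P x) := by
  have hxs : ‖x‖ < Real.sqrt 2 := (DS_mem x).1 hx
  have hg : Measurable fun y : ℂ => ENNReal.ofReal (DS_L - Real.log ‖x - y‖) :=
    (DS_meas_K.comp (measurable_const.prodMk measurable_id)).ennreal_ofReal
  rw [← lintegral_indicator DS_measA, ← Complex.lintegral_comp_polarCoord_symm,
    polarCoord_target, Measure.volume_eq_prod, ← Measure.prod_restrict,
    lintegral_prod]
  swap
  · refine Measurable.aemeasurable ?_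
    have hpm : Measurable fun p : ℝ × ℝ => Complex.polarCoord.symm p := by
      simp only [Complex.polarCoord_symm_apply]
      fun_prop
    exact (measurable_fst.ennreal_ofReal).mul ((hg.indicator DS_measA).comp hpm)
  have hin : ∀ r ∈ Ioi (0 : ℝ), ∫⁻ θ in Ioo (-Real.pi) Real.pi,
      ENNReal.ofReal (r, θ).1 • DS_A.indicator
        (fun y => ENNReal.ofReal (DS_L - Real.log ‖x - y‖)) (Complex.polarCoord.symm (r, θ)) =
      (Ioo 0 (Real.sqrt 2)).indicator (fun r => ENNReal.ofReal
        (2 * Real.pi * DS_L * r - 2 * Real.pi * (r * Real.log (max ‖x‖ r)))) r := by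
    intro r hr
    have hr0 : (0 : ℝ) < r := hr
    by_cases h : r < Real.sqrt 2
    · rw [indicator_of_mem (show r ∈ Ioo 0 (Real.sqrt 2) from ⟨hr0, h⟩)]
      have hmem : ∀ θ : ℝ, Complex.polarCoord.symm (r, θ) ∈ DS_A := by
        intro θ
        rw [DS_mem, Complex.norm_polarCoord_symm, abs_of_pos hr0]
        exact h
      have hi := DS_circle_int x r
      have hc := DS_circle x hr0
      have hi2 : IntegrableOn (fun θ : ℝ => r * (DS_L -
          Real.log ‖x - (r : ℂ) * (Real.cos θ + Real.sin θ * Complex.I)‖))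
          (Ioo (-Real.pi) Real.pi) :=
        ((integrable_const DS_L).sub hi).const_mul r
      have hnn : ∀ θ : ℝ, 0 ≤ r * (DS_L -
          Real.log ‖x - (r : ℂ) * (Real.cos θ + Real.sin θ * Complex.I)‖) := by
        intro θ
        refine mul_nonneg hr0.le (DS_L_le hxs.le ?_)
        have := (DS_mem _).1 (hmem θ)
        rw [Complex.polarCoord_symm_apply] at this
        exact this.le
      have : ∀ θ : ℝ, ENNReal.ofReal (r, θ).1 • DS_A.indicator
          (fun y => ENNReal.ofReal (DS_L - Real.log ‖x - y‖)) (Complex.polarCoord.symm (r, θ)) =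
          ENNReal.ofReal (r * (DS_L -
          Real.log ‖x - (r : ℂ) * (Real.cos θ + Real.sin θ * Complex.I)‖)) := by
        intro θ
        rw [indicator_of_mem (hmem θ), Complex.polarCoord_symm_apply, smul_eq_mul,
          ← ENNReal.ofReal_mul hr0.le]
      simp only [this]
      rw [← ofReal_integral_eq_lintegral_ofReal hi2 (Eventually.of_forall hnn)]
      congr 1
      rw [integral_const_mul, integral_sub (integrable_const DS_L) hi, hc, setIntegral_const]
      simp only [Measure.real, Real.volume_Ioo, smul_eq_mul]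
      rw [ENNReal.toReal_ofReal (by linarith [Real.pi_pos])]
      ring
    · rw [indicator_of_notMem (fun hh => h hh.2)]
      have hmem : ∀ θ : ℝ, Complex.polarCoord.symm (r, θ) ∉ DS_A := by
        intro θ
        rw [DS_mem, Complex.norm_polarCoord_symm, abs_of_pos hr0]
        exact h
      simp only [indicator_of_notMem (hmem _), smul_zero, lintegral_zero]
  rw [setLIntegral_congr_fun measurableSet_Ioi hin, lintegral_indicator measurableSet_Ioo,
    Measure.restrict_restrict measurableSet_Ioo, inter_eq_left.2 Ioo_subset_Ioi_self]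
  obtain ⟨hi, hv⟩ := DS_radial (norm_nonneg x) hxs
  have hi0 : IntegrableOn (fun r : ℝ => 2 * Real.pi * DS_L * r) (Ioo 0 (Real.sqrt 2)) :=
    ((by fun_prop : Continuous fun r : ℝ => 2 * Real.pi * DS_L * r).integrableOn_Icc
      (a := 0) (b := Real.sqrt 2)).mono_set Ioo_subset_Icc_self
  have hsub : IntegrableOn (fun r : ℝ => 2 * Real.pi * DS_L * r -
      2 * Real.pi * (r * Real.log (max ‖x‖ r))) (Ioo 0 (Real.sqrt 2)) :=
    hi0.sub (hi.const_mul _)
  rw [← ofReal_integral_eq_lintegral_ofReal hsub]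
  · congr 1
    rw [integral_sub hi0 (hi.const_mul _), integral_const_mul, integral_const_mul, hv]
    have : ∫ r in Ioo 0 (Real.sqrt 2), r = 1 := by
      rw [← integral_Ioc_eq_integral_Ioo, ← intervalIntegral.integral_of_le DS_sqrt.le,
        integral_id, Real.sq_sqrt (by norm_num)]
      norm_num
    rw [this, DS_P]
    ring
  · filter_upwards [self_mem_ae_restrict measurableSet_Ioo] with r hr
    have h1 : max ‖x‖ r ≤ 2 * Real.sqrt 2 := by
      have := DS_sqrt
      exact max_le (by linarith) (by linarith [hr.2])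
    have h2 : Real.log (max ‖x‖ r) ≤ DS_L :=
      Real.log_le_log (lt_of_lt_of_le hr.1 (le_max_right _ _)) h1
    have h3 : 0 ≤ 2 * Real.pi * r * (DS_L - Real.log (max ‖x‖ r)) :=
      mul_nonneg (mul_nonneg (by positivity) hr.1.le) (by linarith)
    have : 2 * Real.pi * DS_L * r - 2 * Real.pi * (r * Real.log (max ‖x‖ r)) =
      2 * Real.pi * r * (DS_L - Real.log (max ‖x‖ r)) := by ring
    simp only [Pi.zero_apply, this]
    exact h3

/-- the second moment of the disc -/
theorem DS_second : ∫ x in DS_A, ‖x‖ ^ 2 = 2 * Real.pi := by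
  have h := integral_fun_norm_addHaar (volume : Measure ℂ)
    (fun t : ℝ => (Iio (Real.sqrt 2)).indicator (fun t => t ^ 2) t)
  have e : (fun x : ℂ => (Iio (Real.sqrt 2)).indicator (fun t : ℝ => t ^ 2) ‖x‖) =
      DS_A.indicator fun x => ‖x‖ ^ 2 := by
    funext x
    by_cases hx : ‖x‖ < Real.sqrt 2
    · rw [indicator_of_mem (show ‖x‖ ∈ Iio (Real.sqrt 2) from hx),
        indicator_of_mem ((DS_mem x).2 hx)]
    · rw [indicator_of_notMem (show ‖x‖ ∉ Iio (Real.sqrt 2) from hx),
        indicator_of_notMem (fun hh => hx ((DS_mem x).1 hh))]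
  rw [e, integral_indicator DS_measA] at h
  rw [h, Complex.finrank_real_complex]
  have hb : volume.real (Metric.ball (0 : ℂ) 1) = Real.pi := by
    simp [Measure.real, Complex.volume_ball]
  have hr : ∫ y in Ioi (0 : ℝ), y ^ (2 - 1) • (Iio (Real.sqrt 2)).indicator (fun t => t ^ 2) y =
      1 := by
    have e2 : (fun y : ℝ => y ^ (2 - 1) • (Iio (Real.sqrt 2)).indicator (fun t => t ^ 2) y) =
        (Iio (Real.sqrt 2)).indicator fun y => y ^ 3 := by
      funext y
      by_cases hy : y ∈ Iio (Real.sqrt 2)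
      · rw [indicator_of_mem hy, indicator_of_mem hy, smul_eq_mul]
        ring
      · rw [indicator_of_notMem hy, indicator_of_notMem hy, smul_zero]
    rw [e2, setIntegral_indicator measurableSet_Iio, Ioi_inter_Iio,
      ← integral_Ioc_eq_integral_Ioo, ← intervalIntegral.integral_of_le DS_sqrt.le,
      integral_pow]
    have : Real.sqrt 2 ^ (3 + 1) = (Real.sqrt 2 ^ 2) ^ 2 := by ring
    rw [this, Real.sq_sqrt (by norm_num)]
    norm_num
  rw [hr, hb]
  simp

theorem DS_int_pow : IntegrableOn (fun x : ℂ => ‖x‖ ^ 2) DS_A :=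
  ((by fun_prop : Continuous fun x : ℂ => ‖x‖ ^ 2).continuousOn.integrableOn_compact
    (isCompact_closedBall (0 : ℂ) (Real.sqrt 2))).mono_set Metric.ball_subset_closedBall

theorem DS_finite : volume DS_A ≠ ⊤ := by
  rw [DS_volA]
  exact ENNReal.ofReal_ne_top

theorem DS_real : volume.real DS_A = 2 * Real.pi := by
  rw [Measure.real, DS_volA, ENNReal.toReal_ofReal (by positivity)]

theorem DS_dens : Dens DS_rho := by
  have hc : ∀ c : ℝ, Integrable (DS_A.indicator fun _ => c : ℂ → ℝ) := fun c =>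
    (integrable_indicator_iff DS_measA).2 (integrableOn_const (hs := DS_finite))
  refine ⟨measurable_const.indicator DS_measA, fun x => indicator_nonneg (fun _ _ => by positivity) x,
    hc _, ?_, ?_, ?_⟩
  · rw [DS_rho, integral_indicator DS_measA, setIntegral_const, DS_real, smul_eq_mul]
    field_simp
  · have : (fun x => DS_rho x * Real.log (DS_rho x)) =
        (DS_A.indicator fun _ => (2 * Real.pi)⁻¹ * Real.log (2 * Real.pi)⁻¹ : ℂ → ℝ) := by
      funext x
      by_cases hx : x ∈ DS_A
      · simp only [DS_rho, indicator_of_mem hx]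
      · simp only [DS_rho, indicator_of_notMem hx, zero_mul]
    rw [this]
    exact hc _
  · have : (fun x : ℂ => ‖x‖ ^ 2 * DS_rho x) =
        DS_A.indicator fun x => ‖x‖ ^ 2 * (2 * Real.pi)⁻¹ := by
      funext x
      by_cases hx : x ∈ DS_A
      · simp only [DS_rho, indicator_of_mem hx]
      · simp only [DS_rho, indicator_of_notMem hx, mul_zero]
    rw [this]
    exact (integrable_indicator_iff DS_measA).2 (DS_int_pow.mul_const _)

theorem DS_mo : mo DS_rho = 1 := by
  have : (fun x : ℂ => ‖x‖ ^ 2 * DS_rho x) =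
      DS_A.indicator fun x => ‖x‖ ^ 2 * (2 * Real.pi)⁻¹ := by
    funext x
    by_cases hx : x ∈ DS_A
    · simp only [DS_rho, indicator_of_mem hx]
    · simp only [DS_rho, indicator_of_notMem hx, mul_zero]
  rw [mo, this, integral_indicator DS_measA, integral_mul_const, DS_second]
  field_simp

theorem DS_mean : mean DS_rho = 0 := by
  have h : ∫ x : ℂ, ((DS_rho x : ℝ) : ℂ) * x = ∫ x : ℂ, -(((DS_rho x : ℝ) : ℂ) * x) := by
    rw [← integral_neg_eq_self (μ := volume) fun x : ℂ => ((DS_rho x : ℝ) : ℂ) * x]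
    refine integral_congr_ae (Eventually.of_forall fun x => ?_)
    have e : DS_rho (-x) = DS_rho x := by
      by_cases hx : x ∈ DS_A
      · have hx' : -x ∈ DS_A := by
          rw [DS_mem, norm_neg]
          exact (DS_mem x).1 hx
        simp only [DS_rho, indicator_of_mem hx, indicator_of_mem hx']
      · have hx' : -x ∉ DS_A := by
          rw [DS_mem, norm_neg]
          exact fun hh => hx ((DS_mem x).2 hh)
        simp only [DS_rho, indicator_of_notMem hx, indicator_of_notMem hx']
    simp only [e, mul_neg]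
  rw [integral_neg] at h
  rw [mean]
  exact self_eq_neg.1 h

theorem DS_intP : IntegrableOn DS_P DS_A ∧ ∫ x in DS_A, DS_P x =
    (2 * Real.pi) ^ 2 * (DS_L - 1 / 2 * Real.log 2 + 1 / 4) := by
  have ic : ∀ c : ℝ, IntegrableOn (fun _ : ℂ => c) DS_A := fun c =>
    integrableOn_const (hs := DS_finite)
  have e : DS_P = fun x => 2 * Real.pi * (DS_L - 1 / 2 * Real.log 2 + 1 / 2) -
      2 * Real.pi / 4 * ‖x‖ ^ 2 := by
    funext x
    rw [DS_P]
    ring
  rw [e]
  refine ⟨(ic _).sub (DS_int_pow.const_mul _), ?_⟩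
  rw [integral_sub (ic _) (DS_int_pow.const_mul _), setIntegral_const, DS_real, smul_eq_mul,
    integral_const_mul, DS_second]
  ring

theorem DS_double : IntegrableOn (fun p : ℂ × ℂ => DS_L - Real.log ‖p.1 - p.2‖) (DS_A ×ˢ DS_A) ∧
    ∫ p in DS_A ×ˢ DS_A, (DS_L - Real.log ‖p.1 - p.2‖) =
      (2 * Real.pi) ^ 2 * (DS_L - 1 / 2 * Real.log 2 + 1 / 4) := by
  have hnn : ∀ᵐ p : ℂ × ℂ ∂(volume.restrict (DS_A ×ˢ DS_A)),
      0 ≤ DS_L - Real.log ‖p.1 - p.2‖ := by
    filter_upwards [self_mem_ae_restrict (DS_measA.prod DS_measA)] with p hp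
    exact DS_L_le ((DS_mem _).1 hp.1).le ((DS_mem _).1 hp.2).le
  have hl : ∫⁻ p in DS_A ×ˢ DS_A, ENNReal.ofReal (DS_L - Real.log ‖p.1 - p.2‖) =
      ENNReal.ofReal ((2 * Real.pi) ^ 2 * (DS_L - 1 / 2 * Real.log 2 + 1 / 4)) := by
    rw [Measure.volume_eq_prod, ← Measure.prod_restrict,
      lintegral_prod _ DS_meas_K.ennreal_ofReal.aemeasurable,
      setLIntegral_congr_fun DS_measA (fun x hx => DS_pot hx),
      ← ofReal_integral_eq_lintegral_ofReal DS_intP.1, DS_intP.2]
    filter_upwards [self_mem_ae_restrict DS_measA] with x hx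
    have hx2 : ‖x‖ ^ 2 < 2 := by
      have h1 := (DS_mem x).1 hx
      have h2 : Real.sqrt 2 ^ 2 = 2 := Real.sq_sqrt (by norm_num)
      have h3 := norm_nonneg x
      nlinarith [DS_sqrt]
    have hl2 := Real.log_nonneg (by norm_num : (1 : ℝ) ≤ 2)
    rw [Pi.zero_apply, DS_P, DS_L_eq]
    refine mul_nonneg (by positivity) ?_
    have hl3 : 0 ≤ Real.log 2 := hl2
    have hl4 := Real.log_two_gt_d9
    linarith
  have hi : IntegrableOn (fun p : ℂ × ℂ => DS_L - Real.log ‖p.1 - p.2‖) (DS_A ×ˢ DS_A) := by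
    refine ⟨DS_meas_K.aestronglyMeasurable, ?_⟩
    rw [hasFiniteIntegral_iff_ofReal hnn, hl]
    exact ENNReal.ofReal_lt_top
  refine ⟨hi, ?_⟩
  rw [integral_eq_lintegral_of_nonneg_ae hnn DS_meas_K.aestronglyMeasurable, hl,
    ENNReal.toReal_ofReal]
  have hl4 := Real.log_two_gt_d9
  rw [DS_L_eq]
  refine mul_nonneg (by positivity) (by linarith)

theorem DS_En : En DS_rho DS_rho = e0 := by
  have e : (fun p : ℂ × ℂ => Real.log ‖p.1 - p.2‖ * (DS_rho p.1 * DS_rho p.2)) =
      (DS_A ×ˢ DS_A).indicator fun p => ((2 * Real.pi)⁻¹) ^ 2 * Real.log ‖p.1 - p.2‖ := by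
    funext p
    by_cases hp : p ∈ DS_A ×ˢ DS_A
    · rw [indicator_of_mem hp]
      simp only [DS_rho, indicator_of_mem hp.1, indicator_of_mem hp.2]
      ring
    · rw [indicator_of_notMem hp]
      by_cases h1 : p.1 ∈ DS_A
      · have h2 : p.2 ∉ DS_A := fun h2 => hp ⟨h1, h2⟩
        simp only [DS_rho, indicator_of_notMem h2, mul_zero]
      · simp only [DS_rho, indicator_of_notMem h1, zero_mul, mul_zero]
  have hfin : volume (DS_A ×ˢ DS_A) ≠ ⊤ := by
    rw [Measure.volume_eq_prod, Measure.prod_prod]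
    exact ENNReal.mul_ne_top DS_finite DS_finite
  have hreal : volume.real (DS_A ×ˢ DS_A) = (2 * Real.pi) ^ 2 := by
    rw [Measure.real, Measure.volume_eq_prod, Measure.prod_prod, ENNReal.toReal_mul]
    have := DS_real
    rw [Measure.real] at this
    rw [this]
    ring
  have h1 : IntegrableOn (fun _ : ℂ × ℂ => DS_L) (DS_A ×ˢ DS_A) :=
    integrableOn_const (hs := hfin)
  have hi : IntegrableOn (fun p : ℂ × ℂ => Real.log ‖p.1 - p.2‖) (DS_A ×ˢ DS_A) := by
    refine (h1.sub DS_double.1).congr (Eventually.of_forall fun p => ?_)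
    simp only [Pi.sub_apply]
    ring
  have hv : ∫ p in DS_A ×ˢ DS_A, Real.log ‖p.1 - p.2‖ =
      (2 * Real.pi) ^ 2 * (1 / 2 * Real.log 2 - 1 / 4) := by
    have h := DS_double.2
    rw [integral_sub h1 hi, setIntegral_const, hreal, smul_eq_mul] at h
    linarith
  rw [En, e, integral_indicator (DS_measA.prod DS_measA), integral_const_mul, hv, e0]
  have := Real.pi_pos
  field_simp
  ring

theorem DS_disc : ∃ ρ : ℂ → ℝ, Dens ρ ∧ mo ρ = 1 ∧ mean ρ = 0 ∧ En ρ ρ = e0 :=
  ⟨DS_rho, DS_dens, DS_mo, DS_mean, DS_En⟩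

end

end Pool.Agent.Lib_helper68.MC
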